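import Pool.Agent.H92.RR.Targets

/-!
# Row RNZP of rr_modules: small values are rare (helper79)
-/

set_option autoImplicit false

open MeasureTheory ProbabilityTheory Filter Topology Finset
open Pool.Agent.H89.MT Pool.Agent.H92.RR
open scoped ENNReal

namespace Pool.Agent.H79.RR

lemma sum_shift (a : ℕ) (g : ℕ → ℝ) (h0 : ∀ n, 0 ≤ g n) (h1 : ∀ n, g n ≤ 1) (N : ℕ) :
    ∑ n ∈ Icc 1 N, g (n + a) / n ≤ ∑ n ∈ Icc 1 N, g n / n + 2 * a := by
  rcases Nat.eq_zero_or_pos a with ha | ha
  · subst ha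
    simp
  have haR : (1 : ℝ) ≤ a := by exact_mod_cast ha
  have hS : ∀ k : ℕ, ∑ n ∈ Icc 1 (N + k), g n / (n : ℝ) ≤ ∑ n ∈ Icc 1 N, g n / (n : ℝ) + k := by
    intro k
    induction k with
    | zero => simp
    | succ k ih =>
      rw [← add_assoc, sum_Icc_succ_top (by omega)]
      have : g (N + k + 1) / ((N + k + 1 : ℕ) : ℝ) ≤ 1 := by
        rw [div_le_one (by positivity)]
        have h2 : (1 : ℝ) ≤ ((N + k + 1 : ℕ) : ℝ) := by
          exact_mod_cast Nat.succ_le_succ (Nat.zero_le _)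
        linarith [h1 (N + k + 1)]
      push_cast at this ih ⊢
      linarith
  have hT : ∀ M : ℕ, ∑ n ∈ Icc 1 M, g (n + a) / (n : ℝ) ≤
      ∑ n ∈ Icc 1 (M + a), g n / (n : ℝ) + a * (1 - 1 / ((M : ℝ) + 1)) := by
    intro M
    induction M with
    | zero =>
      have : (0 : ℝ) ≤ ∑ n ∈ Icc 1 (0 + a), g n / (n : ℝ) :=
        sum_nonneg fun n _ => div_nonneg (h0 n) (Nat.cast_nonneg n)
      simpa using this
    | succ M ih =>
      have e1 : M + 1 + a = (M + a) + 1 := by omega
      rw [sum_Icc_succ_top (by omega), e1, sum_Icc_succ_top (by omega)]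
      have hM : (0 : ℝ) ≤ M := Nat.cast_nonneg M
      have e2 : ((M + 1 : ℕ) : ℝ) = (M : ℝ) + 1 := by push_cast; ring
      have e3 : ((M + a + 1 : ℕ) : ℝ) = (M : ℝ) + a + 1 := by push_cast; ring
      rw [e2, e3]
      have hg := h1 (M + a + 1)
      have hg0 := h0 (M + a + 1)
      have key : g (M + a + 1) / ((M : ℝ) + 1) ≤ g (M + a + 1) / ((M : ℝ) + a + 1) +
          a * (1 / ((M : ℝ) + 1) - 1 / ((M : ℝ) + 1 + 1)) := by
        have d1 : g (M + a + 1) / ((M : ℝ) + 1) - g (M + a + 1) / ((M : ℝ) + a + 1) =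
            g (M + a + 1) * (a / (((M : ℝ) + 1) * ((M : ℝ) + a + 1))) := by
          field_simp
          ring
        have d2 : a * (1 / ((M : ℝ) + 1) - 1 / ((M : ℝ) + 1 + 1)) =
            a / (((M : ℝ) + 1) * ((M : ℝ) + 1 + 1)) := by
          field_simp
          ring
        have d3 : (a : ℝ) / (((M : ℝ) + 1) * ((M : ℝ) + a + 1)) ≤
            a / (((M : ℝ) + 1) * ((M : ℝ) + 1 + 1)) := by
          refine div_le_div_of_nonneg_left (by linarith) (by positivity) ?_
          refine mul_le_mul_of_nonneg_left ?_ (by linarith)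
          linarith
        have d4 : 0 ≤ (a : ℝ) / (((M : ℝ) + 1) * ((M : ℝ) + a + 1)) := by positivity
        have d5 : g (M + a + 1) * (a / (((M : ℝ) + 1) * ((M : ℝ) + a + 1))) ≤
            1 * (a / (((M : ℝ) + 1) * ((M : ℝ) + a + 1))) :=
          mul_le_mul_of_nonneg_right hg d4
        linarith
      linarith
  have h2 := hT N
  have h3 := hS a
  have h4 : (a : ℝ) * (1 - 1 / ((N : ℝ) + 1)) ≤ a := by
    have : (0 : ℝ) ≤ a * (1 / ((N : ℝ) + 1)) := by positivity
    linarith
  linarith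

lemma sum_back (a : ℕ) (g f : ℕ → ℝ) (h0 : ∀ n, 0 ≤ g n) (hf1 : ∀ n, f n ≤ 1)
    (hf : ∀ n, a < n → f n ≤ g (n - a)) (N : ℕ) :
    ∑ n ∈ Icc 1 N, f n / (n : ℝ) ≤ ∑ n ∈ Icc 1 N, g n / (n : ℝ) + a := by
  have hsmall : ∀ M : ℕ, ∑ n ∈ Icc 1 M, f n / (n : ℝ) ≤ M := by
    intro M
    have h2 : ∑ n ∈ Icc 1 M, f n / (n : ℝ) ≤ ∑ _n ∈ Icc 1 M, (1 : ℝ) := by
      refine sum_le_sum fun n hn => ?_
      rw [mem_Icc] at hn
      have h3 : (1 : ℝ) ≤ n := by exact_mod_cast hn.1
      rw [div_le_one (by linarith)]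
      linarith [hf1 n]
    simpa using h2
  have hg0 : ∀ M : ℕ, 0 ≤ ∑ n ∈ Icc 1 M, g n / (n : ℝ) := fun M =>
    sum_nonneg fun n _ => div_nonneg (h0 n) (Nat.cast_nonneg n)
  rcases Nat.lt_or_ge N a with h | h
  · have h2 := hsmall N
    have h3 : (N : ℝ) ≤ a := by exact_mod_cast h.le
    linarith [hg0 N]
  · have hk : ∀ k : ℕ, ∑ n ∈ Icc 1 (a + k), f n / (n : ℝ) ≤
        ∑ n ∈ Icc 1 k, g n / (n : ℝ) + a := by
      intro k
      induction k with
      | zero => simpa using hsmall a
      | succ k ih =>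
        rw [← add_assoc, sum_Icc_succ_top (by omega), sum_Icc_succ_top (by omega)]
        have h2 := hf (a + k + 1) (by omega)
        have e : a + k + 1 - a = k + 1 := by omega
        rw [e] at h2
        have h3 : f (a + k + 1) / ((a + k + 1 : ℕ) : ℝ) ≤ g (k + 1) / ((k + 1 : ℕ) : ℝ) := by
          have h4 : (0 : ℝ) < ((k + 1 : ℕ) : ℝ) := by positivity
          have h5 : ((k + 1 : ℕ) : ℝ) ≤ ((a + k + 1 : ℕ) : ℝ) := by
            exact_mod_cast (by omega : k + 1 ≤ a + k + 1)
          calc f (a + k + 1) / ((a + k + 1 : ℕ) : ℝ) ≤ g (k + 1) / ((a + k + 1 : ℕ) : ℝ) :=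
                div_le_div_of_nonneg_right h2 (Nat.cast_nonneg _)
            _ ≤ g (k + 1) / ((k + 1 : ℕ) : ℝ) := div_le_div_of_nonneg_left (h0 _) h4 h5
        linarith
    obtain ⟨k, rfl⟩ := Nat.exists_eq_add_of_le h
    refine (hk k).trans ?_
    have : ∑ n ∈ Icc 1 k, g n / (n : ℝ) ≤ ∑ n ∈ Icc 1 (a + k), g n / (n : ℝ) := by
      refine sum_le_sum_of_subset_of_nonneg ?_ fun n _ _ =>
        div_nonneg (h0 n) (Nat.cast_nonneg n)
      exact Icc_subset_Icc_right (by omega)
    linarith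

/-- the test function -/
noncomputable def Ft (c : ℝ) (t : ℝ) : ℝ := max 0 (1 - t / c)

lemma Ft_cont (c : ℝ) : Continuous (Ft c) := by
  unfold Ft
  exact continuous_const.max (continuous_const.sub (continuous_id.div_const c))

theorem pf_NZP : T_NZP := by
  intro u α hα hgen hu0 hsmall
  rw [ae_all_iff]
  intro j
  rw [ae_iff]
  have hset : {x : X | ¬ 0 < (x j : ℝ)} = {x : X | (x j : ℝ) ≤ 0} := by
    ext x
    exact not_lt
  rw [hset]
  have key : ∀ ε : ℝ, 0 < ε → α.real {x : X | (x j : ℝ) ≤ 0} ≤ ε := by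
    intro ε hε
    obtain ⟨c, hc, hev⟩ := hsmall ε hε
    have hFc : Continuous fun x : X => Ft c (x j : ℝ) :=
      (Ft_cont c).comp (continuous_subtype_val.comp (continuous_apply j))
    set F : C(X, ℝ) := ⟨fun x : X => Ft c (x j : ℝ), hFc⟩ with hF
    have hFx : ∀ x : X, F x = Ft c (x j : ℝ) := fun x => rfl
    have hF0 : ∀ x : X, 0 ≤ F x := fun x => by
      rw [hFx]
      exact le_max_left _ _
    have hFb : ∀ x : X, F x ≤ 1 + 1 / c := by
      intro x
      rw [hFx]
      unfold Ft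
      have h1 : -1 ≤ (x j : ℝ) := (x j).2.1
      have h2 : -(1 / c) ≤ (x j : ℝ) / c := by
        rw [← neg_div]
        exact div_le_div_of_nonneg_right h1 hc.le
      have h3 : 0 ≤ 1 / c := by positivity
      exact max_le (by linarith) (by linarith)
    have hint : Integrable (fun x => F x) α := by
      refine Integrable.of_bound F.continuous.aestronglyMeasurable (1 + 1 / c)
        (Eventually.of_forall fun x => ?_)
      rw [Real.norm_eq_abs, abs_of_nonneg (hF0 x)]
      exact hFb x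
    -- values of the test function
    set g : ℕ → ℝ := fun n => if (u n : ℝ) < c then 1 else 0 with hg
    have hg0 : ∀ n, 0 ≤ g n := by
      intro n
      simp only [hg]
      split_ifs <;> norm_num
    have hg1 : ∀ n, g n ≤ 1 := by
      intro n
      simp only [hg]
      split_ifs <;> norm_num
    have hFg : ∀ n, Ft c (u n : ℝ) ≤ g n := by
      intro n
      simp only [hg]
      unfold Ft
      have h1 : 0 ≤ (u n : ℝ) / c := div_nonneg (hu0 n) hc.le
      split_ifs with h
      · exact max_le (by norm_num) (by linarith)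
      · push Not at h
        have h2 : 1 ≤ (u n : ℝ) / c := by
          rw [le_div_iff₀ hc]
          linarith
        exact max_le (le_refl 0) (by linarith)
    have hFz : Ft c ((z1 : I1) : ℝ) = 1 := by
      unfold Ft z1
      simp
    -- the averages
    have hsum : ∃ C : ℝ, ∀ N : ℕ, ∑ n ∈ Icc 1 N, F (pt u n) / (n : ℝ) ≤
        ∑ n ∈ Icc 1 N, g n / (n : ℝ) + C := by
      have hFle : ∀ n, F (pt u n) ≤ 1 := by
        intro n
        rw [hFx]
        unfold pt
        split_ifs with h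
        · exact (hFg _).trans (hg1 _)
        · rw [hFz]
      rcases le_total 0 j with hj | hj
      · obtain ⟨a, ha⟩ := Int.eq_ofNat_of_zero_le hj
        refine ⟨2 * a, fun N => ?_⟩
        refine le_trans ?_ (sum_shift a g hg0 hg1 N)
        refine sum_le_sum fun n hn => ?_
        rw [mem_Icc] at hn
        refine div_le_div_of_nonneg_right ?_ (Nat.cast_nonneg n)
        rw [hFx]
        unfold pt
        have h1 : 0 < (n : ℤ) + j := by omega
        have h2 : ((n : ℤ) + j).toNat = n + a := by omega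
        rw [if_pos h1, h2]
        exact hFg _
      · obtain ⟨a, ha⟩ := Int.eq_ofNat_of_zero_le (by omega : 0 ≤ -j)
        refine ⟨a, fun N => ?_⟩
        refine sum_back a g (fun n => F (pt u n)) hg0 hFle (fun n hn => ?_) N
        rw [hFx]
        unfold pt
        have h1 : 0 < (n : ℤ) + j := by omega
        have h2 : ((n : ℤ) + j).toNat = n - a := by omega
        rw [if_pos h1, h2]
        exact hFg _
    obtain ⟨C, hC⟩ := hsum
    have hlog : Tendsto (fun N : ℕ => Real.log (N : ℝ)) atTop atTop :=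
      Real.tendsto_log_atTop.comp tendsto_natCast_atTop_atTop
    have hlim : Tendsto (fun N : ℕ => ε + C / Real.log (N : ℝ)) atTop (𝓝 (ε + 0)) :=
      tendsto_const_nhds.add (tendsto_const_nhds.div_atTop hlog)
    have hle : ∫ x, F x ∂α ≤ ε + 0 := by
      refine le_of_tendsto_of_tendsto (hgen F) hlim ?_
      filter_upwards [hev, hlog.eventually_gt_atTop 0] with N hN hpos
      unfold lavg at hN ⊢
      have h2 := hC N
      calc (∑ n ∈ Icc 1 N, F (pt u n) / (n : ℝ)) / Real.log N
          ≤ (∑ n ∈ Icc 1 N, g n / (n : ℝ) + C) / Real.log N :=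
            div_le_div_of_nonneg_right h2 hpos.le
        _ = (∑ n ∈ Icc 1 N, g n / (n : ℝ)) / Real.log N + C / Real.log N := add_div _ _ _
        _ ≤ ε + C / Real.log N := by linarith
    rw [add_zero] at hle
    have hmk := mul_meas_ge_le_integral_of_nonneg (Eventually.of_forall hF0) hint 1
    rw [one_mul] at hmk
    refine le_trans (measureReal_mono ?_ (measure_ne_top α _)) (hmk.trans hle)
    intro x hx
    have hx' : (x j : ℝ) ≤ 0 := hx
    show 1 ≤ F x
    rw [hFx]
    unfold Ft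
    have : (x j : ℝ) / c ≤ 0 := div_nonpos_of_nonpos_of_nonneg hx' hc.le
    exact le_max_of_le_right (by linarith)
  have h0 : α.real {x : X | (x j : ℝ) ≤ 0} ≤ 0 := le_of_forall_pos_le_add fun ε hε => by
    rw [zero_add]
    exact key ε hε
  have h1 : α.real {x : X | (x j : ℝ) ≤ 0} = 0 := le_antisymm h0 measureReal_nonneg
  exact (measureReal_eq_zero_iff (measure_ne_top α _)).1 h1

end Pool.Agent.H79.RR
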